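import Mathlib
import Pool.Agent.Lib.MP_4146e4_co.Full.Base
import Pool.Agent.Lib.MP_4146e4_co.Full.Sparse
import Pool.Agent.Lib.MP_4146e4_co.Full.Dual
import Pool.Agent.Lib.MP_4146e4_co.Full.Cluster
import Pool.Agent.Lib.MP_4146e4_co.Full.PP
import Pool.Agent.Lib.MP_4146e4_co.Full.Strong

/-!
# `K_r`-free `d`-degenerate graphs with chromatic number at least `ε d` have exponential order

The case `ε = 1`, `k = d` is question Q1 of MP_4146e4_co (theorem `q1` below).
-/

set_option autoImplicit false

namespace Pool.Agent.Results.MP_4146e4_co.LinearChromatic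

/-- `G` is `d`-degenerate: every subgraph of `G` with a vertex has a vertex of degree at most `d`
(degree in the subgraph). -/
def IsDegenerate {V : Type} (d : ℕ) (G : SimpleGraph V) : Prop :=
  ∀ H : G.Subgraph, H.verts.Nonempty → ∃ v ∈ H.verts, (H.neighborSet v).ncard ≤ d

lemma IsDegenerate.sets {V : Type} {d : ℕ} {G : SimpleGraph V} (h : IsDegenerate d G) :
    ∀ s : Set V, s.Nonempty → ∃ v ∈ s, (G.neighborSet v ∩ s).ncard ≤ d := by
  intro s hs
  obtain ⟨v, hv, hd⟩ := h ((⊤ : G.Subgraph).induce s) hs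
  refine ⟨v, hv, ?_⟩
  have hv' : v ∈ s := hv
  have e : ((⊤ : G.Subgraph).induce s).neighborSet v = G.neighborSet v ∩ s := by
    ext w
    simp only [SimpleGraph.Subgraph.mem_neighborSet, SimpleGraph.Subgraph.induce_adj,
      SimpleGraph.Subgraph.top_adj, Set.mem_inter_iff, SimpleGraph.mem_neighborSet]
    tauto
  rw [e] at hd
  exact hd

/-- For all `r ≥ 3` and `ε > 0` there is `c > 0` such that for all `d` every finite `K_r`-free
`d`-degenerate graph which is not `k`-colourable for some `k ≥ ε d` has at least `e^(c d)`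
vertices. -/
theorem result (r : ℕ) (hr : 3 ≤ r) (ε : ℝ) (hε : 0 < ε) :
    ∃ c : ℝ, 0 < c ∧ ∀ (d : ℕ) (V : Type) [Fintype V] (G : SimpleGraph V),
      G.CliqueFree r → IsDegenerate d G → ∀ k : ℕ, ε * d ≤ k → ¬ G.Colorable k →
        Real.exp (c * d) ≤ (Fintype.card V : ℝ) := by
  obtain ⟨c, hc, d₀, h⟩ := Pool.Agent.MP4146e4.strong_of
    (Pool.Agent.MP4146e4.specPP Pool.Agent.MP4146e4.base_spec Pool.Agent.MP4146e4.sparse_spec
      Pool.Agent.MP4146e4.specDual Pool.Agent.MP4146e4.specCluster) Pool.Agent.MP4146e4.specDual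
    r (by omega) ε hε
  have hlog : 0 < Real.log 2 := Real.log_pos (by norm_num)
  refine ⟨min c (Real.log 2 / (d₀ + 1)), by positivity, fun d V _ G hcl hdeg k hk hcol => ?_⟩
  have hd0 : (0 : ℝ) ≤ d := Nat.cast_nonneg d
  by_cases hd : d₀ ≤ d
  · have h1 : min c (Real.log 2 / (d₀ + 1)) * d ≤ c * d :=
      mul_le_mul_of_nonneg_right (min_le_left _ _) hd0
    refine (Real.exp_le_exp.2 h1).trans ?_
    by_contra hlt
    push Not at hlt
    exact hcol (h d hd V G hcl hdeg.sets hlt k hk)
  · -- few values of `d` are left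
    push Not at hd
    have hn : k < Fintype.card V := by
      by_contra hle
      push Not at hle
      exact hcol (G.colorable_of_fintype.mono hle)
    rcases Nat.eq_zero_or_pos k with rfl | hkpos
    · have hd00 : (d : ℝ) ≤ 0 := by
        have h1 : ε * d ≤ 0 := by simpa using hk
        by_contra hpos
        push Not at hpos
        nlinarith
      have hdz : (d : ℝ) = 0 := le_antisymm hd00 hd0
      rw [hdz, mul_zero, Real.exp_zero]
      exact_mod_cast hn
    · have h2 : (2 : ℝ) ≤ Fintype.card V := by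
        have : 2 ≤ Fintype.card V := by omega
        exact_mod_cast this
      refine le_trans ?_ h2
      have h3 : min c (Real.log 2 / (d₀ + 1)) * d ≤ Real.log 2 := by
        have h4 : (d : ℝ) ≤ d₀ + 1 := by
          have : (d : ℝ) ≤ d₀ := by exact_mod_cast hd.le
          linarith
        calc min c (Real.log 2 / (d₀ + 1)) * d ≤ Real.log 2 / (d₀ + 1) * (d₀ + 1) :=
              mul_le_mul (min_le_right _ _) h4 hd0 (by positivity)
          _ = Real.log 2 := by field_simp
      calc Real.exp (min c (Real.log 2 / (d₀ + 1)) * d) ≤ Real.exp (Real.log 2) :=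
            Real.exp_le_exp.2 h3
        _ = 2 := Real.exp_log (by norm_num)

/-- Question Q1: for every `r ≥ 3` there is `c > 0` such that for all `d` every finite `K_r`-free
`d`-degenerate graph with chromatic number `d + 1` has at least `e^(c d)` vertices. -/
theorem q1 (r : ℕ) (hr : 3 ≤ r) :
    ∃ c : ℝ, 0 < c ∧ ∀ (d : ℕ) (V : Type) [Fintype V] (G : SimpleGraph V),
      G.CliqueFree r → IsDegenerate d G → G.chromaticNumber = ((d + 1 : ℕ) : ℕ∞) →
        Real.exp (c * d) ≤ (Fintype.card V : ℝ) := by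
  obtain ⟨c, hc, h⟩ := result r hr 1 one_pos
  refine ⟨c, hc, fun d V _ G hcl hdeg hchi => h d V G hcl hdeg d (by rw [one_mul]) fun hcol => ?_⟩
  have h1 := hcol.chromaticNumber_le
  rw [hchi] at h1
  have h2 : d + 1 ≤ d := by exact_mod_cast h1
  omega

end Pool.Agent.Results.MP_4146e4_co.LinearChromatic
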