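import Pool.Agent.Lib.MP_4146e4_co.Graph

/-!
# MP_4146e4_co: the case `r = 3`, and all locally sparse degenerate graphs

`result`: there are `δ, ε, c > 0` such that for all large `d`, a finite `d`-degenerate graph in which
every set of at most `d` vertices inside a neighbourhood spans at most `δ d²` ordered adjacent pairs,
and which is not `k`-colourable for some `k ≥ (1 - ε) d`, has at least `exp (c d)` vertices.

`triangle_free`: the instance `r = 3` of the posed statement (same form as the frozen statement).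
-/

namespace Pool.Agent.Results.MP_4146e4_co.LocallySparse

open Pool.Agent.MP4146e4

theorem result :
    ∃ δ : ℝ, 0 < δ ∧ ∃ ε : ℝ, 0 < ε ∧ ∃ c : ℝ, 0 < c ∧ ∃ d₀ : ℕ, ∀ d : ℕ, d₀ ≤ d →
      ∀ (V : Type) [Fintype V] (G : SimpleGraph V),
        (∀ s : Set V, s.Nonempty → ∃ v ∈ s, (G.neighborSet v ∩ s).ncard ≤ d) →
        (∀ v : V, ∀ S : Set V, S ⊆ G.neighborSet v → S.ncard ≤ d →
          ({p : V × V | p.1 ∈ S ∧ p.2 ∈ S ∧ G.Adj p.1 p.2}.ncard : ℝ) ≤ δ * (d : ℝ) ^ 2) →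
        ∀ k : ℕ, (1 - ε) * (d : ℝ) ≤ (k : ℝ) → ¬ G.Colorable k →
          Real.exp (c * (d : ℝ)) ≤ (Fintype.card V : ℝ) := by
  have hl := lam_pos
  obtain ⟨d₀, hd₀⟩ : ∃ d₀ : ℕ, d₀ = ⌈2 * B⌉₊ + 400 := ⟨_, rfl⟩
  refine ⟨Real.exp (-(2 * B)), Real.exp_pos _, 1 / 800, by norm_num, lam / 400,
    by positivity, d₀, ?_⟩
  intro d hd V _ G hdeg hsparse k hk hcol
  by_contra hcon
  push Not at hcon
  have hd1 : 2 * B ≤ d := by
    have h1 : ((⌈2 * B⌉₊ : ℕ) : ℝ) ≤ d := by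
      have : ⌈2 * B⌉₊ ≤ d := by omega
      exact_mod_cast this
    exact (Nat.le_ceil _).trans h1
  have hd400 : 400 ≤ d := by omega
  have hc := colorable_of_sparse G hd1 hd400 hdeg hsparse hcon
  refine hcol (hc.mono ?_)
  have h2 : d ≤ 800 * (d / 400) := by omega
  have h3 : (d : ℝ) ≤ 800 * ((d / 400 : ℕ) : ℝ) := by exact_mod_cast h2
  have h4 : (((d - d / 400 : ℕ)) : ℝ) = (d : ℝ) - ((d / 400 : ℕ) : ℝ) := by
    rw [Nat.cast_sub (Nat.div_le_self d 400)]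
  have h5 : (((d - d / 400 : ℕ)) : ℝ) ≤ k := by
    rw [h4]
    linarith
  exact_mod_cast h5

/-- The instance `r = 3` of the posed statement. -/
theorem triangle_free :
    ∃ c : ℝ, 0 < c ∧ ∃ d₀ : ℕ, ∀ d : ℕ, d₀ ≤ d →
      ∀ (V : Type) [Fintype V] (G : SimpleGraph V),
        G.CliqueFree 3 →
        (∀ s : Set V, s.Nonempty → ∃ v ∈ s, (G.neighborSet v ∩ s).ncard ≤ d) →
        G.chromaticNumber = ((d + 1 : ℕ) : ℕ∞) →
        Real.exp (c * (d : ℝ)) ≤ (Fintype.card V : ℝ) := by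
  obtain ⟨δ, hδ, ε, hε, c, hc, d₀, h⟩ := result
  refine ⟨c, hc, d₀, ?_⟩
  intro d hd V _ G hG hdeg hchi
  refine h d hd V G hdeg ?_ d ?_ ?_
  · intro v S hS _
    have hempty : {p : V × V | p.1 ∈ S ∧ p.2 ∈ S ∧ G.Adj p.1 p.2} = ∅ := by
      rw [Set.eq_empty_iff_forall_notMem]
      rintro ⟨x, y⟩ ⟨hx, hy, hxy⟩
      have h1 : G.Adj v x := hS hx
      have h2 : G.Adj v y := hS hy
      classical
      apply hG {v, x, y}
      rw [SimpleGraph.is3Clique_triple_iff]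
      exact ⟨h1, h2, hxy⟩
    rw [hempty, Set.ncard_empty, Nat.cast_zero]
    positivity
  · nlinarith [(Nat.cast_nonneg d : (0 : ℝ) ≤ d)]
  · intro hcol
    have h1 : G.chromaticNumber ≤ d := hcol.chromaticNumber_le
    rw [hchi] at h1
    have h2 : d + 1 ≤ d := by exact_mod_cast h1
    omega

end Pool.Agent.Results.MP_4146e4_co.LocallySparse
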